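import Pool.Agent.Helper189.OD.Main

/-!
# Order-embeddings in divisible ordered groups: jumps of convex normal subgroups and ultraproducts
-/

set_option autoImplicit false
set_option linter.all false
universe u

namespace Pool.Agent.Y839.OD

open _root_.OD

/-- the group with the cone `P` maps to a divisible group with a cone, positive elements going to
positive elements -/
def EmbC {G : Type u} [Group G] (P : Set G) : Prop :=
  ∃ (H : Type u) (_ : Group H) (PH : Set H) (φ : G →* H), Cone PH ∧ Dvb H ∧ ∀ g ∈ P, φ g ∈ PH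

/-- a jump of convex normal subgroups -/
def Jump {G : Type u} [Group G] (P : Set G) (N W : Subgroup G) : Prop :=
  NC P N ∧ NC P W ∧ N < W ∧ ∀ M : Subgroup G, NC P M → N < M → W ≤ M

/-- it is enough to treat the jumps of convex normal subgroups -/
theorem of_jumps {G : Type u} [Group G] (P : Set G) (hP : Cone P)
    (h : ∀ N W : Subgroup G, Jump P N W →
      ∃ (H : Type u) (_ : Group H) (PH : Set H) (φ : G →* H), Cone PH ∧ Dvb H ∧
        (∀ g ∈ N, φ g = 1) ∧ (∀ g ∈ P, g ∈ W → g ∉ N → φ g ∈ PH)) : EmbC P := by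
  classical
  let I : Type u := {N : Subgroup G // NC P N}
  letI : LinearOrder I :=
    { (inferInstance : PartialOrder I) with
      le_total := fun a b => NC.total hP a.2 b.2
      toDecidableLE := fun _ _ => Classical.dec _ }
  have h : ∀ i : I, ∃ (H : Type u) (_ : Group H) (PH : Set H) (φ : G →* H), Cone PH ∧ Dvb H ∧
      (∀ g ∈ i.1, φ g = 1) ∧
      (∀ g ∈ P, g ∉ i.1 → (∀ M : Subgroup G, NC P M → i.1 < M → g ∈ M) → φ g ∈ PH) := by
    rintro ⟨N, hN⟩
    by_cases hex : ∃ g0 ∈ P, g0 ∉ N ∧ ∀ M : Subgroup G, NC P M → N < M → g0 ∈ M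
    · obtain ⟨g0, hg0, hg0N, hg0M⟩ := hex
      let W : Subgroup G := sInf {M | NC P M ∧ N < M}
      have hNW : N ≤ W := le_sInf (fun M hM => hM.2.le)
      have hgW : g0 ∈ W := Subgroup.mem_sInf.2 fun M hM => hg0M M hM.1 hM.2
      have hW : NC P W := by
        refine ⟨⟨fun a ha g => ?_⟩, fun v hv g hg hgv => ?_⟩
        · rw [Subgroup.mem_sInf] at ha ⊢
          intro M hM
          exact hM.1.nor.conj_mem a (ha M hM) g
        · rw [Subgroup.mem_sInf] at hv ⊢
          intro M hM
          exact hM.1.cvx v (hv M hM) g hg hgv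
      have hlt : N < W := lt_of_le_of_ne hNW fun h => hg0N (h ▸ hgW)
      obtain ⟨H, _, PH, φ, h1, h2, h3, h4⟩ := h N W ⟨hN, hW, hlt, fun M hM hNM =>
        sInf_le ⟨hM, hNM⟩⟩
      refine ⟨H, inferInstance, PH, φ, h1, h2, h3, fun g hg hgN hgM => h4 g hg ?_ hgN⟩
      exact Subgroup.mem_sInf.2 fun M hM => hgM M hM.1 hM.2
    · refine ⟨PUnit.{u+1}, inferInstance, ∅, 1, ⟨?_, ?_, ?_, ?_⟩, ?_, ?_, ?_⟩
      · intro a ha; exact absurd ha (Set.notMem_empty _)
      · intro a ha; exact absurd ha (Set.notMem_empty _)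
      · exact Set.notMem_empty _
      · intro g; left; exact Subsingleton.elim _ _
      · intro g n hn; exact ⟨g, Subsingleton.elim _ _⟩
      · intro g hg; rfl
      · intro g hg hgN hgM
        exact absurd ⟨g, hg, hgN, hgM⟩ hex
  choose H inst PH φ hPH hHd hφ1 hφ2 using h
  letI := inst
  obtain ⟨PP, hPP, hPP2⟩ := prod_cone H PH hPH
  refine ⟨∀ i, H i, inferInstance, PP, MonoidHom.mk' (fun g i => φ i g) (fun a b => by
    funext i; exact map_mul (φ i) a b), hPP, ?_, ?_⟩
  · intro d n hn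
    choose x hx using fun i => hHd i (d i) n hn
    exact ⟨x, funext hx⟩
  · intro g hg
    obtain ⟨N, hN, hgN, hmax⟩ := exists_N hP g hg
    have key : ∀ M : Subgroup G, NC P M → N < M → g ∈ M := by
      intro M hM hNM
      by_contra hgM
      exact absurd (hmax M hM hgM) (not_le_of_gt hNM)
    refine hPP2 _ ⟨N, hN⟩ (hφ2 ⟨N, hN⟩ g hg hgN key) ?_
    intro j hj
    exact hφ1 j g (key j.1 j.2 hj)

/-- abelian-by-nilpotent groups -/
def AbByNil (G : Type u) [Group G] : Prop :=
  ∃ (A : Subgroup G) (_ : A.Normal), (∀ a ∈ A, ∀ b ∈ A, a * b = b * a) ∧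
    Group.IsNilpotent (G ⧸ A)

/-- a jump `(N, W)` with `G ⧸ N` abelian-by-nilpotent -/
theorem jump_hom {G : Type u} [Group G] (P : Set G) (hP : Cone P) (N W : Subgroup G)
    (hJ : Jump P N W) [hNn : N.Normal] (hab : AbByNil (G ⧸ N)) :
    ∃ (H : Type u) (_ : Group H) (PH : Set H) (φ : G →* H), Cone PH ∧ Dvb H ∧
        (∀ g ∈ N, φ g = 1) ∧ (∀ g ∈ P, g ∈ W → g ∉ N → φ g ∈ PH) := by
  obtain ⟨A, hA, hAab, hnil⟩ := hab
  have hQ := quot_cone P hP N hJ.1.cvx
  set PQ : Set (G ⧸ N) := {x : G ⧸ N | ∃ g ∈ P, g ∉ N ∧ (QuotientGroup.mk g : G ⧸ N) = x}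
    with hPQ
  have hbot : NC PQ (⊥ : Subgroup (G ⧸ N)) := by
    refine ⟨inferInstance, ?_⟩
    intro v hv x hx hxv
    rw [Subgroup.mem_bot] at hv
    subst hv
    rw [mul_one] at hxv
    exact absurd hxv (fun h => hQ.inv_not hx h)
  obtain ⟨H, _, PH, φ, hPH, hHd, -, hφ⟩ := local_hom oLocal oreFG malcevAll PQ hQ A hA hAab hnil ⊥
    hbot
  refine ⟨H, inferInstance, PH, φ.comp (QuotientGroup.mk' N), hPH, hHd, ?_, ?_⟩
  · intro g hg
    show φ (QuotientGroup.mk g : G ⧸ N) = 1
    rw [(QuotientGroup.eq_one_iff g).2 hg, map_one]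
  · intro g hgP hgW hgN
    refine hφ _ ⟨g, hgP, hgN, rfl⟩ ?_ ?_
    · rw [Subgroup.mem_bot]
      intro h
      exact hgN ((QuotientGroup.eq_one_iff g).1 h)
    · intro M hM hlt
      have hM' : NC P (M.comap (QuotientGroup.mk' N)) := by
        refine ⟨hM.nor.comap _, ?_⟩
        intro v hv x hx hxv
        rw [Subgroup.mem_comap] at hv ⊢
        by_cases hxN : x ∈ N
        · have : (QuotientGroup.mk' N) x = 1 := (QuotientGroup.eq_one_iff x).2 hxN
          rw [this]; exact M.one_mem
        by_cases hxv' : x⁻¹ * v ∈ N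
        · have h1 : (QuotientGroup.mk' N) (x⁻¹ * v) = 1 := (QuotientGroup.eq_one_iff _).2 hxv'
          rw [map_mul, map_inv] at h1
          have h2 : (QuotientGroup.mk' N) x = (QuotientGroup.mk' N) v := inv_mul_eq_one.1 h1
          rw [h2]; exact hv
        · exact hM.cvx _ hv _ ⟨x, hx, hxN, rfl⟩ ⟨x⁻¹ * v, hxv, hxv', rfl⟩
      have hNM : N < M.comap (QuotientGroup.mk' N) := by
        refine lt_of_le_of_ne ?_ ?_
        · intro n hn
          rw [Subgroup.mem_comap]
          have : (QuotientGroup.mk' N) n = 1 := (QuotientGroup.eq_one_iff n).2 hn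
          rw [this]; exact M.one_mem
        · intro h
          refine absurd hlt.ne' ?_
          push Not
          rw [eq_bot_iff]
          intro x hx
          obtain ⟨y, rfl⟩ := QuotientGroup.mk_surjective x
          rw [Subgroup.mem_bot]
          refine (QuotientGroup.eq_one_iff y).2 ?_
          rw [h, Subgroup.mem_comap]
          exact hx
      exact hJ.2.2.2 _ hM' hNM hgW

/-- embeddability is a local property -/
theorem of_local {G : Type u} [Group G] (P : Set G) (hP : Cone P)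
    (h : ∀ S : Finset G, EmbC (G := Subgroup.closure (S : Set G)) {g | (g : G) ∈ P}) :
    EmbC P := by
  classical
  choose H inst PH φ hPH hHd hφ using h
  letI := inst
  let U : Ultrafilter (Finset G) := Ultrafilter.of Filter.atTop
  have hU : (U : Filter (Finset G)) ≤ Filter.atTop := Ultrafilter.of_le _
  have hmem : ∀ g : G, ∀ᶠ S : Finset G in (U : Filter (Finset G)),
      g ∈ Subgroup.closure (S : Set G) := by
    intro g
    apply hU
    filter_upwards [Filter.mem_atTop ({g} : Finset G)] with S hS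
    exact Subgroup.subset_closure (by exact_mod_cast hS (Finset.mem_singleton_self g))
  let K : Subgroup (∀ S, H S) :=
    { carrier := {f | ∀ᶠ S in (U : Filter (Finset G)), f S = 1}
      one_mem' := Filter.Eventually.of_forall fun S => rfl
      mul_mem' := by
        intro a b ha hb
        have ha' : ∀ᶠ S in (U : Filter (Finset G)), a S = 1 := ha
        have hb' : ∀ᶠ S in (U : Filter (Finset G)), b S = 1 := hb
        show ∀ᶠ S in (U : Filter (Finset G)), (a * b) S = 1
        filter_upwards [ha', hb'] with S h1 h2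
        rw [Pi.mul_apply, h1, h2, one_mul]
      inv_mem' := by
        intro a ha
        have ha' : ∀ᶠ S in (U : Filter (Finset G)), a S = 1 := ha
        show ∀ᶠ S in (U : Filter (Finset G)), (a⁻¹) S = 1
        filter_upwards [ha'] with S h1
        rw [Pi.inv_apply, h1, inv_one] }
  have hKmem : ∀ f : ∀ S, H S, f ∈ K ↔ ∀ᶠ S in (U : Filter (Finset G)), f S = 1 :=
    fun f => Iff.rfl
  haveI hK : K.Normal := by
    refine ⟨fun a ha g => ?_⟩
    rw [hKmem] at ha ⊢
    filter_upwards [ha] with S h1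
    simp [h1]
  let D : Type u := (∀ S, H S) ⧸ K
  have hmk : ∀ f f' : ∀ S, H S, (∀ᶠ S in (U : Filter (Finset G)), f S = f' S) →
      (QuotientGroup.mk f : (∀ S, H S) ⧸ K) = QuotientGroup.mk f' := by
    intro f f' hff
    rw [QuotientGroup.eq, hKmem]
    filter_upwards [hff] with S h1
    rw [Pi.mul_apply, Pi.inv_apply, h1, inv_mul_cancel]
  let PD : Set ((∀ S, H S) ⧸ K) := {x | ∃ f : ∀ S, H S,
    (∀ᶠ S in (U : Filter (Finset G)), f S ∈ PH S) ∧ (QuotientGroup.mk f : (∀ S, H S) ⧸ K) = x}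
  have hPD : Cone PD := by
    refine ⟨?_, ?_, ?_, ?_⟩
    · rintro _ ⟨a, ha, rfl⟩ _ ⟨b, hb, rfl⟩
      refine ⟨a * b, ?_, rfl⟩
      filter_upwards [ha, hb] with S h1 h2
      exact (hPH S).mul _ h1 _ h2
    · rintro _ ⟨a, ha, rfl⟩ g
      obtain ⟨g, rfl⟩ := QuotientGroup.mk_surjective g
      refine ⟨g * a * g⁻¹, ?_, rfl⟩
      filter_upwards [ha] with S h1
      exact (hPH S).conj _ h1 _
    · rintro ⟨a, ha, h1⟩
      have h2 : a ∈ K := (QuotientGroup.eq_one_iff a).1 h1
      rw [hKmem] at h2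
      obtain ⟨S, h3, h4⟩ := (ha.and h2).exists
      rw [h4] at h3
      exact (hPH S).one h3
    · intro x
      obtain ⟨f, rfl⟩ := QuotientGroup.mk_surjective x
      have h1 : ∀ᶠ S in (U : Filter (Finset G)), f S = 1 ∨ (f S ∈ PH S ∨ (f S)⁻¹ ∈ PH S) :=
        Filter.Eventually.of_forall fun S => (hPH S).tot (f S)
      rcases Ultrafilter.eventually_or.1 h1 with h2 | h2
      · left
        exact (QuotientGroup.eq_one_iff f).2 h2
      · right
        rcases Ultrafilter.eventually_or.1 h2 with h3 | h3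
        · left; exact ⟨f, h3, rfl⟩
        · right; exact ⟨f⁻¹, h3, rfl⟩
  refine ⟨(∀ S, H S) ⧸ K, inferInstance, PD, MonoidHom.mk' (fun g =>
    (QuotientGroup.mk (fun S => if hg : g ∈ Subgroup.closure (S : Set G) then φ S ⟨g, hg⟩ else 1) :
      (∀ S, H S) ⧸ K)) ?_, hPD, ?_, ?_⟩
  · intro a b
    rw [← QuotientGroup.mk_mul]
    refine hmk _ _ ?_
    filter_upwards [hmem a, hmem b] with S ha hb
    rw [Pi.mul_apply, dif_pos ha, dif_pos hb, dif_pos (mul_mem ha hb), ← map_mul]
    rfl
  · intro x n hn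
    obtain ⟨f, rfl⟩ := QuotientGroup.mk_surjective x
    choose y hy using fun S => hHd S (f S) n hn
    refine ⟨QuotientGroup.mk y, ?_⟩
    rw [← QuotientGroup.mk_pow]
    exact congrArg _ (funext hy)
  · intro g hg
    refine ⟨_, ?_, rfl⟩
    filter_upwards [hmem g] with S hS
    rw [dif_pos hS]
    exact hφ S ⟨g, hS⟩ hg

/-- a quotient of a group by a subgroup that contains the kernel of a homomorphism to an
abelian-by-nilpotent group -/
theorem AbByNil.quot_of_hom {K L : Type u} [Group K] [Group L] (f : K →* L) (N : Subgroup K)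
    [hN : N.Normal] (hker : f.ker ≤ N) (h : AbByNil L) : AbByNil (K ⧸ N) := by
  obtain ⟨B, hB, hBab, hnil⟩ := h
  haveI : (B.comap f).Normal := hB.comap f
  haveI hA' : ((B.comap f).map (QuotientGroup.mk' N)).Normal :=
    Subgroup.Normal.map this _ (QuotientGroup.mk'_surjective N)
  refine ⟨(B.comap f).map (QuotientGroup.mk' N), hA', ?_, ?_⟩
  · rintro _ ⟨a, ha, rfl⟩ _ ⟨b, hb, rfl⟩
    have h1 : f (b * a) = f (a * b) := by
      rw [map_mul, map_mul]
      exact hBab _ hb _ ha
    have h2 : (b * a)⁻¹ * (a * b) ∈ N := by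
      refine hker ?_
      rw [MonoidHom.mem_ker, map_mul, map_inv, h1, inv_mul_cancel]
    rw [← map_mul, ← map_mul]
    exact ((QuotientGroup.eq (s := N)).2 h2).symm
  · have h1 : Group.IsNilpotent (K ⧸ B.comap f) := by
      haveI := hnil
      refine Subgroup.isNilpotent_of_ker_le_center (QuotientGroup.map (B.comap f) B f le_rfl) ?_
      intro x hx
      rw [MonoidHom.mem_ker] at hx
      suffices h : x = 1 by rw [h]; exact Subgroup.one_mem _
      obtain ⟨y, rfl⟩ := QuotientGroup.mk_surjective x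
      rw [QuotientGroup.map_mk] at hx
      exact (QuotientGroup.eq_one_iff y).2 ((QuotientGroup.eq_one_iff (f y)).1 hx)
    haveI := h1
    refine Group.nilpotent_of_surjective (QuotientGroup.map (B.comap f)
      ((B.comap f).map (QuotientGroup.mk' N)) (QuotientGroup.mk' N) (Subgroup.le_comap_map _ _)) ?_
    intro x
    obtain ⟨y, rfl⟩ := QuotientGroup.mk_surjective x
    obtain ⟨g, rfl⟩ := QuotientGroup.mk_surjective y
    exact ⟨(QuotientGroup.mk g : K ⧸ B.comap f), rfl⟩

end Pool.Agent.Y839.OD
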