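import Pool.Agent.Y148.OD.Stm4

/-!
# OD-20: a generic linear combination is transcendental

`stmComb : Pool.Agent.Y148.OD.StmComb`.
-/

set_option autoImplicit false

namespace Pool.Agent.Y839.OD

open MvPolynomial Pool.Agent.Y148.OD

/-- evaluation of a polynomial in `Option ι₀` variables, the variables `some a` at elements of the
base field -/
theorem aeval_option {F Ω ι₀ : Type} [Field F] [Field Ω] [Algebra F Ω] (P : MvPolynomial (Option ι₀) F)
    (T : ι₀ → F) (x : Ω) :
    Polynomial.aeval x (Polynomial.map (eval T) (optionEquivLeft F ι₀ P)) =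
      aeval (fun o : Option ι₀ => o.elim x (fun a => algebraMap F Ω (T a))) P := by
  have h : (Polynomial.aeval (R := F) x).comp ((Polynomial.mapAlgHom (aeval (R := F) T)).comp
      (optionEquivLeft F ι₀).toAlgHom) =
      aeval (fun o : Option ι₀ => o.elim x (fun a => algebraMap F Ω (T a))) := by
    apply MvPolynomial.algHom_ext
    intro o
    rcases o with _ | a
    · simp
    · simp
  have h1 := congrArg (fun g => g P) h
  simpa [aeval_eq_eval] using h1

/-- Nonzero polynomials over an infinite field have simultaneous nonzeros at two points whose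
difference is prescribed. -/
theorem exists_two {F ι₀ : Type} [Field F] [Infinite F] {p : MvPolynomial ι₀ F} (hp : p ≠ 0)
    (e : ι₀ → F) : ∃ T : ι₀ → F, eval T p ≠ 0 ∧ eval (T + e) p ≠ 0 := by
  by_contra hcon
  push Not at hcon
  set q : MvPolynomial ι₀ F := aeval (fun a => X a + C (e a)) p with hq
  have hqe : ∀ T : ι₀ → F, eval T q = eval (T + e) p := by
    intro T
    have h : (aeval (R := F) T).comp (aeval (fun a => (X a + C (e a) : MvPolynomial ι₀ F))) =
        aeval (T + e) := by
      apply MvPolynomial.algHom_ext
      intro a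
      simp
    have h1 := congrArg (fun φ => φ p) h
    simpa [aeval_eq_eval, hq] using h1
  have h1 : p * q = 0 := by
    apply MvPolynomial.funext
    intro T
    rw [map_mul, hqe, map_zero]
    by_cases h : eval T p = 0
    · rw [h, zero_mul]
    · rw [hcon T h, mul_zero]
  rcases mul_eq_zero.mp h1 with h | h
  · exact hp h
  · apply hp
    apply MvPolynomial.funext
    intro T
    have := hqe (T - e)
    rw [h, map_zero, sub_add_cancel] at this
    rw [← this, map_zero]

theorem stmComb : StmComb := by
  intro Ω _ _ ι₀ _ K₁ η t hη ht F hF hrk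
  classical
  -- an element `η a₁` transcendental over `F`
  obtain ⟨a₁, ha₁⟩ : ∃ a, Transcendental F (η a) := by
    have h1 : (1 : ℕ∞) ≤ rk F (Set.range η) := Order.one_le_iff_ne_zero.mpr hrk
    obtain ⟨I, hI, hind, hc⟩ := le_rk_iff.mp h1
    obtain ⟨x, rfl⟩ := Set.encard_eq_one.mp hc
    obtain ⟨a, ha⟩ := hI (Set.mem_singleton x)
    refine ⟨a, ?_⟩
    have := AlgebraicIndependent.transcendental hind ⟨x, Set.mem_singleton x⟩
    rw [ha]
    exact this
  let _ : Algebra F K₁ := (Subfield.inclusion hF).toAlgebra
  have hst : IsScalarTower F K₁ Ω := IsScalarTower.of_algebraMap_eq fun x => rfl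
  set f : Option ι₀ → Ω := fun o => o.elim (∑ a, t a * η a) t with hf
  have hfi : AlgebraicIndependent F f := by
    rw [algebraicIndependent_iff]
    intro P hP
    by_contra hne
    -- the values of `P`
    have hval : ∀ T : ι₀ → F,
        aeval (fun o : Option ι₀ => o.elim (∑ a, (T a : Ω) * η a) (fun a => algebraMap F Ω (T a))) P
          = 0 := by
      intro T
      set g : Option ι₀ → MvPolynomial ι₀ K₁ :=
        fun o => o.elim (∑ a, X a * C (⟨η a, hη a⟩ : K₁)) X with hg
      set Q : MvPolynomial ι₀ K₁ := aeval g P with hQ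
      have h1 : aeval t Q = 0 := by
        have h2 : ((aeval t : MvPolynomial ι₀ K₁ →ₐ[K₁] Ω).restrictScalars F).comp
            (aeval g : MvPolynomial (Option ι₀) F →ₐ[F] MvPolynomial ι₀ K₁) = aeval f := by
          apply MvPolynomial.algHom_ext
          intro o
          rcases o with _ | a
          · simp [hg, hf]
            rfl
          · simp [hg, hf]
        have h3 := congrArg (fun φ => φ P) h2
        simp only [AlgHom.comp_apply, AlgHom.restrictScalars_apply] at h3
        rw [hQ, h3, hP]
      have hQ0 : Q = 0 := (algebraicIndependent_iff.mp ht) Q h1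
      have h2 : ((aeval (fun a => algebraMap F Ω (T a)) : MvPolynomial ι₀ K₁ →ₐ[K₁] Ω).restrictScalars
          F).comp (aeval g : MvPolynomial (Option ι₀) F →ₐ[F] MvPolynomial ι₀ K₁) =
          aeval (fun o : Option ι₀ => o.elim (∑ a, (T a : Ω) * η a)
            (fun a => algebraMap F Ω (T a))) := by
        apply MvPolynomial.algHom_ext
        intro o
        rcases o with _ | a
        · simp [hg]
          rfl
        · simp [hg]
      have h3 := congrArg (fun φ => φ P) h2
      simp only [AlgHom.comp_apply, AlgHom.restrictScalars_apply] at h3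
      rw [← h3, ← hQ, hQ0, map_zero]
    set p := optionEquivLeft F ι₀ P with hp
    have hp0 : p ≠ 0 := by
      rw [hp]
      simpa using hne
    obtain ⟨T, hT1, hT2⟩ := exists_two (Polynomial.leadingCoeff_ne_zero.mpr hp0) (Pi.single a₁ 1)
    have halg : ∀ T : ι₀ → F, eval T p.leadingCoeff ≠ 0 → IsAlgebraic F (∑ a, (T a : Ω) * η a) := by
      intro T hT
      refine ⟨Polynomial.map (eval T) p, ?_, ?_⟩
      · intro h0
        apply hT
        have := congrArg (fun q => q.coeff p.natDegree) h0
        simpa [Polynomial.coeff_map] using this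
      · rw [hp, aeval_option]
        exact hval T
    have hA := halg _ hT1
    have hB := halg _ hT2
    apply ha₁
    have h5 : η a₁ = (∑ a, (((T + Pi.single a₁ 1 : ι₀ → F) a : F) : Ω) * η a) -
        ∑ a, (T a : Ω) * η a := by
      rw [← Finset.sum_sub_distrib]
      rw [Finset.sum_eq_single a₁]
      · simp
        ring
      · intro b _ hb
        simp [hb]
      · simp
    rw [h5]
    exact hB.sub hA
  rw [le_rk_iff]
  refine ⟨Set.range f, ?_, hfi.to_subtype_range, ?_⟩
  · rintro x ⟨o, rfl⟩
    rcases o with _ | a
    · exact Or.inr rfl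
    · exact Or.inl ⟨a, rfl⟩
  · rw [← Set.image_univ, Function.Injective.encard_image hfi.injective, Set.encard_univ,
      ENat.card_eq_coe_fintype_card, Fintype.card_option]

end Pool.Agent.Y839.OD
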